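import Pool.Agent.PST.StmtsGU

/-!
# Squad PST, row ADR (helper10): the class of the groups of rank at most two is closed under quotients
-/

noncomputable section

namespace Pool.Agent.PST.GU.H10

open Pool.Agent.PSS Pool.Agent.PP

theorem adr : AdrStmt := by
  intro ℓ hℓ
  have hF : Fact ℓ.Prime := ⟨hℓ⟩
  refine ⟨?_, ?_⟩
  · intro V V' _ _ E E' π _ h
    exact TW.r2_subCl ℓ V' V π.symm.toMonoidHom π.symm.injective h
  · intro V V' iV _ iV' _ E E' π hp _ hc hq h _
    obtain ⟨hf, hp', hcomm, hn⟩ := h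
    have hc' : ∀ a b : V', a * b = b * a := by
      intro a b
      obtain ⟨a, rfl⟩ := hq.sur a
      obtain ⟨b, rfl⟩ := hq.sur b
      rw [← map_mul, ← map_mul, hc]
    have hgen : ∃ x y : V, Subgroup.closure ({x, y} : Set V) = ⊤ := by
      let cV : CommGroup V := { iV with mul_comm := hc }
      exact TW.gen_of (Q := V) (ℓ := ℓ) hp hn
    obtain ⟨x, y, hxy⟩ := hgen
    have hxy' : ∀ q : V', q ∈ Subgroup.closure ({π x, π y} : Set V') := by
      intro q
      obtain ⟨v, rfl⟩ := hq.sur q
      have h1 : v ∈ Subgroup.closure ({x, y} : Set V) := by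
        rw [hxy]
        exact Subgroup.mem_top v
      have h2 : π v ∈ (Subgroup.closure ({x, y} : Set V)).map π := Subgroup.mem_map_of_mem π h1
      rw [MonoidHom.map_closure, Set.image_pair] at h2
      exact h2
    have hn' : {x : V' | x ^ ℓ = 1}.ncard ≤ ℓ ^ 2 := by
      let cV' : CommGroup V' := { iV' with mul_comm := hc' }
      exact TW.ncard_le (Q := V') hℓ.pos hxy'
    exact ⟨inferInstance, hp.of_surjective π hq.sur, hc', hn'⟩

end Pool.Agent.PST.GU.H10
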