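import Pool.Agent.PST.StmtsET1

/-!
# Squad PST, block ET, row DET (helper10): Cramer's rule
-/

open scoped BigOperators TensorProduct

noncomputable section

namespace Pool.Agent.PST.ET.H10

theorem det : DetStmt := by
  intro ℓ r _ T _ p d M hd
  have hl : 1 ≤ ℓ := (Fact.out : ℓ.Prime).one_lt.le
  have hl2 : 1 ≤ ℓ - 1 := by
    have := (Fact.out : ℓ.Prime).two_le
    omega
  refine ⟨?_, ?_, ?_⟩
  · have hA : (Matrix.diagonal (fun j => d j ^ (ℓ - 1)) - p • M).mulVec d = 0 := by
      funext j
      rw [Matrix.sub_mulVec, Matrix.smul_mulVec]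
      simp only [Pi.sub_apply, Pi.smul_apply, Pi.zero_apply, Matrix.mulVec_diagonal, smul_eq_mul]
      have h1 : d j ^ (ℓ - 1) * d j = d j ^ ℓ := by
        rw [← pow_succ, Nat.sub_add_cancel hl]
      rw [h1, hd j]
      simp [Matrix.mulVec, dotProduct]
    intro i
    have h2 : (Matrix.diagonal (fun j => d j ^ (ℓ - 1)) - p • M).adjugate.mulVec
        ((Matrix.diagonal (fun j => d j ^ (ℓ - 1)) - p • M).mulVec d) = 0 := by
      rw [hA, Matrix.mulVec_zero]
    rw [Matrix.mulVec_mulVec, Matrix.adjugate_mul, Matrix.smul_mulVec, Matrix.one_mulVec] at h2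
    have h3 := congrFun h2 i
    simpa using h3
  · intro S _ m hm
    rw [RingHom.map_det]
    have h1 : m.mapMatrix (Matrix.diagonal (fun j => d j ^ (ℓ - 1)) - p • M) =
        (-m p) • m.mapMatrix M := by
      ext i j
      by_cases hij : i = j
      · subst hij
        simp [hm, zero_pow (by omega : ℓ - 1 ≠ 0)]
      · simp [Matrix.diagonal_apply_ne _ hij]
    rw [h1, Matrix.det_smul, Fintype.card_fin]
  · intro S _ h hp
    rw [RingHom.map_det]
    have h1 : h.mapMatrix (Matrix.diagonal (fun j => d j ^ (ℓ - 1)) - p • M) =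
        Matrix.diagonal (fun j => h (d j) ^ (ℓ - 1)) := by
      ext i j
      by_cases hij : i = j
      · subst hij
        simp [hp]
      · simp [Matrix.diagonal_apply_ne _ hij, hp]
    rw [h1, Matrix.det_diagonal]

end Pool.Agent.PST.ET.H10
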