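import Pool.Agent.PST.StmtsK2

open scoped BigOperators

noncomputable section

namespace Pool.Agent.PST.H10

open Pool.Agent.PSS

section ring

variable {A B : Type} [Ring A] [Ring B] (i : A →+* B)

/-- the image of `A` -/
def HH : AddSubgroup B := (i : A →+ B).range

theorem mem_HH (x : B) : x ∈ HH i ↔ ∃ a, i a = x := by
  unfold HH
  rw [AddMonoidHom.mem_range]
  rfl

/-- the bimodule `B / i A` -/
abbrev MM : Type := B ⧸ HH i

/-- the quotient map -/
def qq : B →+ MM i := QuotientAddGroup.mk' (HH i)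

theorem qq_surj (m : MM i) : ∃ x, qq i x = m := QuotientAddGroup.mk'_surjective (HH i) m

theorem qq_zero (x : B) : qq i x = 0 ↔ ∃ a, i a = x := by
  rw [← mem_HH i x]
  exact QuotientAddGroup.eq_zero_iff x

/-- left multiplication -/
def LL (a : A) : MM i →+ MM i :=
  QuotientAddGroup.map (HH i) (HH i) (AddMonoidHom.mulLeft (i a)) (by
    intro x hx
    rw [mem_HH] at hx
    obtain ⟨b, rfl⟩ := hx
    rw [AddSubgroup.mem_comap, mem_HH]
    exact ⟨a * b, map_mul i a b⟩)

/-- right multiplication -/
def RR (a : A) : MM i →+ MM i :=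
  QuotientAddGroup.map (HH i) (HH i) (AddMonoidHom.mulRight (i a)) (by
    intro x hx
    rw [mem_HH] at hx
    obtain ⟨b, rfl⟩ := hx
    rw [AddSubgroup.mem_comap, mem_HH]
    exact ⟨b * a, map_mul i b a⟩)

theorem LL_q (a : A) (x : B) : LL i a (qq i x) = qq i (i a * x) := rfl

theorem RR_q (a : A) (x : B) : RR i a (qq i x) = qq i (x * i a) := rfl

/-- the additive group of the extension -/
def XT : Type := A × MM i

instance xadd : AddCommGroup (XT i) := inferInstanceAs (AddCommGroup (A × MM i))

theorem xt_ext {x y : XT i} (h1 : x.1 = y.1) (h2 : x.2 = y.2) : x = y := Prod.ext h1 h2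

/-- the product -/
def xmul (c : B → B → B) (x y : XT i) : XT i :=
  (x.1 * y.1, LL i x.1 y.2 + RR i y.1 x.2 + qq i (c (i x.1) (i y.1)))

theorem bad0l {c : B → B → B} (h : Bad c) (x : B) : c 0 x = 0 := by
  have h1 := h.l 0 0 x
  rw [add_zero] at h1
  exact left_eq_add.1 h1

theorem bad0r {c : B → B → B} (h : Bad c) (x : B) : c x 0 = 0 := by
  have h1 := h.r x 0 0
  rw [add_zero] at h1
  exact left_eq_add.1 h1

/-- the ring -/
@[reducible] def xring (c : B → B → B) (hb : Bad c) (hn : Nrm c)
    (hc : ∀ a₁ a₂ a₃, In i (dl c (i a₁) (i a₂) (i a₃))) : Ring (XT i) :=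
  { xadd i with
    mul := xmul i c
    one := ((1 : A), (0 : MM i))
    left_distrib := by
      intro x y z
      obtain ⟨a, m⟩ := x
      obtain ⟨a', m'⟩ := y
      obtain ⟨a'', m''⟩ := z
      obtain ⟨m, rfl⟩ := qq_surj i m
      obtain ⟨m', rfl⟩ := qq_surj i m'
      obtain ⟨m'', rfl⟩ := qq_surj i m''
      refine xt_ext i (mul_add a a' a'') ?_
      show LL i a (qq i m' + qq i m'') + RR i (a' + a'') (qq i m) + qq i (c (i a) (i (a' + a''))) =
        (LL i a (qq i m') + RR i a' (qq i m) + qq i (c (i a) (i a'))) +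
          (LL i a (qq i m'') + RR i a'' (qq i m) + qq i (c (i a) (i a'')))
      simp only [LL_q, RR_q, ← map_add (qq i)]
      rw [map_add i a' a'', hb.r]
      congr 1
      noncomm_ring
    right_distrib := by
      intro x y z
      obtain ⟨a, m⟩ := x
      obtain ⟨a', m'⟩ := y
      obtain ⟨a'', m''⟩ := z
      obtain ⟨m, rfl⟩ := qq_surj i m
      obtain ⟨m', rfl⟩ := qq_surj i m'
      obtain ⟨m'', rfl⟩ := qq_surj i m''
      refine xt_ext i (add_mul a a' a'') ?_
      show LL i (a + a') (qq i m'') + RR i a'' (qq i m + qq i m') +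
          qq i (c (i (a + a')) (i a'')) =
        (LL i a (qq i m'') + RR i a'' (qq i m) + qq i (c (i a) (i a''))) +
          (LL i a' (qq i m'') + RR i a'' (qq i m') + qq i (c (i a') (i a'')))
      simp only [LL_q, RR_q, ← map_add (qq i)]
      rw [map_add i a a', hb.l]
      congr 1
      noncomm_ring
    zero_mul := by
      intro x
      obtain ⟨a, m⟩ := x
      obtain ⟨m, rfl⟩ := qq_surj i m
      refine xt_ext i (zero_mul a) ?_
      show LL i 0 (qq i m) + RR i a 0 + qq i (c (i 0) (i a)) = 0
      rw [LL_q, map_zero, map_zero, zero_mul, bad0l hb, map_zero, add_zero, add_zero]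
    mul_zero := by
      intro x
      obtain ⟨a, m⟩ := x
      obtain ⟨m, rfl⟩ := qq_surj i m
      refine xt_ext i (mul_zero a) ?_
      show LL i a 0 + RR i 0 (qq i m) + qq i (c (i a) (i 0)) = 0
      rw [RR_q, map_zero, map_zero, mul_zero, bad0r hb, map_zero, add_zero, add_zero]
    mul_assoc := by
      intro x y z
      obtain ⟨a, m⟩ := x
      obtain ⟨a', m'⟩ := y
      obtain ⟨a'', m''⟩ := z
      obtain ⟨m, rfl⟩ := qq_surj i m
      obtain ⟨m', rfl⟩ := qq_surj i m'
      obtain ⟨m'', rfl⟩ := qq_surj i m''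
      refine xt_ext i (mul_assoc a a' a'') ?_
      show LL i (a * a') (qq i m'') +
          RR i a'' (LL i a (qq i m') + RR i a' (qq i m) + qq i (c (i a) (i a'))) +
          qq i (c (i (a * a')) (i a'')) =
        LL i a (LL i a' (qq i m'') + RR i a'' (qq i m') + qq i (c (i a') (i a''))) +
          RR i (a' * a'') (qq i m) + qq i (c (i a) (i (a' * a'')))
      simp only [LL_q, RR_q, ← map_add]
      rw [← sub_eq_zero, ← map_sub, qq_zero]
      obtain ⟨b, hb'⟩ := hc a a' a''
      refine ⟨-b, ?_⟩
      rw [map_neg, hb']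
      unfold dl
      rw [map_mul i a a', map_mul i a' a'']
      noncomm_ring
    one_mul := by
      intro x
      obtain ⟨a, m⟩ := x
      obtain ⟨m, rfl⟩ := qq_surj i m
      refine xt_ext i (one_mul a) ?_
      show LL i 1 (qq i m) + RR i a 0 + qq i (c (i 1) (i a)) = qq i m
      rw [LL_q, map_one, map_zero, one_mul, hn.1, map_zero, add_zero, add_zero]
    mul_one := by
      intro x
      obtain ⟨a, m⟩ := x
      obtain ⟨m, rfl⟩ := qq_surj i m
      refine xt_ext i (mul_one a) ?_
      show LL i a 0 + RR i 1 (qq i m) + qq i (c (i a) (i 1)) = qq i m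
      rw [RR_q, map_one, map_zero, mul_one, hn.2, map_zero, add_zero, zero_add] }

end ring

theorem ecr : EcrStmt := by
  intro A B _ _ i c hb hn hc
  let _ : Ring (XT i) := xring i c hb hn hc
  let p : XT i →+* A :=
    { toFun := fun x => x.1
      map_one' := rfl
      map_mul' := fun _ _ => rfl
      map_zero' := rfl
      map_add' := fun _ _ => rfl }
  let j : B →+ XT i :=
    { toFun := fun x => ((0 : A), qq i x)
      map_zero' := xt_ext i rfl (map_zero (qq i))
      map_add' := fun x y => xt_ext i (add_zero (0 : A)).symm (map_add (qq i) x y) }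
  let s : A →+ XT i :=
    { toFun := fun a => (a, (0 : MM i))
      map_zero' := rfl
      map_add' := fun a b => xt_ext i rfl (add_zero (0 : MM i)).symm }
  refine ⟨XT i, inferInstance, p, j, s, ?_⟩
  refine ⟨fun a => rfl, fun m => rfl, ?_, ?_, ?_, ?_, ?_, ?_, rfl⟩
  · intro x hx
    obtain ⟨m, hm⟩ := qq_surj i x.2
    exact ⟨m, xt_ext i hx hm.symm⟩
  · intro m
    constructor
    · intro h
      have h2 : qq i m = 0 := congrArg (fun z : XT i => z.2) h
      exact (qq_zero i m).1 h2
    · intro h
      exact xt_ext i rfl ((qq_zero i m).2 h)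
  · intro m m'
    refine xt_ext i (mul_zero (0 : A)) ?_
    show LL i 0 (qq i m') + RR i 0 (qq i m) + qq i (c (i 0) (i 0)) = 0
    rw [LL_q, RR_q, map_zero, zero_mul, mul_zero, bad0l hb, map_zero, add_zero, add_zero]
  · intro a m
    refine xt_ext i (mul_zero a) ?_
    show LL i a (qq i m) + RR i 0 0 + qq i (c (i a) (i 0)) = qq i (i a * m)
    rw [LL_q, map_zero, map_zero, bad0r hb, map_zero, add_zero, add_zero]
  · intro a m
    refine xt_ext i (zero_mul a) ?_
    show LL i 0 0 + RR i a (qq i m) + qq i (c (i 0) (i a)) = qq i (m * i a)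
    rw [RR_q, map_zero, map_zero, bad0l hb, map_zero, add_zero, zero_add]
  · intro a a'
    refine xt_ext i (add_zero (a * a')).symm ?_
    show LL i a 0 + RR i a' 0 + qq i (c (i a) (i a')) = 0 + qq i (c (i a) (i a'))
    rw [map_zero, map_zero, add_zero]

end Pool.Agent.PST.H10
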