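import Pool.Agent.PST.StmtsGR
import Pool.Agent.Helper69_PSS.CYP

/-!
# Squad PST, row KNF (helper10): from `ChA`, `Frw` to `Chn`, `Fre`
-/

noncomputable section

namespace Pool.Agent.PST.H10

open Pool.Agent.PSS Pool.Agent.PSS.H69

theorem cha_le {ℓ : ℕ} {V : Type} [Group V] {E : Subgroup (MulAut V)} {P W : Subgroup V}
    (h : ChA ℓ E P W) : W ≤ P := by
  induction h with
  | refl P => exact le_rfl
  | step P P' W hs _ ih => exact ih.trans hs.le

/-- The claim. -/
theorem claim {ℓ : ℕ} {V : Type} [CommGroup V] {E : Subgroup (MulAut V)} {P W : Subgroup V}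
    (hC : ChA ℓ E P W) : ∀ (V₁ E₁ : Type) [CommGroup V₁] [Group E₁] (φ : E₁ →* MulAut V₁)
    (i : V₁ →* V), Function.Injective i → (∀ x, ∃ a ∈ E, ∀ v, i (φ x v) = a (i v)) →
    i.range = P → ∃ n, Chn ℓ n V₁ E₁ φ (W.comap i) := by
  induction hC with
  | refl P =>
    intro V₁ E₁ _ _ φ i hi _ hr
    refine ⟨0, ?_⟩
    change P.comap i = ⊤
    rw [eq_top_iff]
    intro v _
    rw [Subgroup.mem_comap, ← hr]
    exact ⟨v, rfl⟩
  | step P P' W hs hch ih =>
    intro V₁ E₁ _ _ φ i hi hφ hr
    have hsw : ∀ e : E₁, ∀ u ∈ P'.comap i, φ e u ∈ P'.comap i := by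
      intro e u hu
      rw [Subgroup.mem_comap] at hu ⊢
      obtain ⟨a, ha, hae⟩ := hφ e
      rw [hae]
      exact hs.st a ha _ hu
    have hmap : (P'.comap i).map i = P' := by
      rw [Subgroup.map_comap_eq, hr]
      exact inf_eq_right.mpr hs.le
    obtain ⟨n, hn⟩ := ih (P'.comap i) E₁ (rsh φ (P'.comap i) hsw) (i.comp (P'.comap i).subtype)
      (hi.comp (P'.comap i).subtype_injective)
      (by
        intro x
        obtain ⟨a, ha, hae⟩ := hφ x
        exact ⟨a, ha, fun v => hae v⟩)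
      (by rw [MonoidHom.range_comp, Subgroup.range_subtype, hmap])
    refine ⟨n + 1, P'.comap i, rsh φ (P'.comap i) hsw, ?_, ?_, fun e w => rfl, hn⟩
    · rcases hs.tp with ⟨Y, hY1, hY2, hcyc, hYst⟩ | ⟨hl, hpw, hfr, hab⟩
      · left
        have hYr : Y ≤ i.range := by
          rw [hr, ← hY2]
          exact le_sup_left
        have hPr : P' ≤ i.range := by
          rw [hr]
          exact hs.le
        refine ⟨Y.comap i, ⟨?_, ?_⟩, ?_, ?_, hsw⟩
        · rw [disjoint_iff, eq_bot_iff]
          intro v hv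
          obtain ⟨hv1, hv2⟩ := Subgroup.mem_inf.mp hv
          have h4 : i v ∈ Y ⊓ P' := Subgroup.mem_inf.mpr ⟨hv1, hv2⟩
          rw [hY1, Subgroup.mem_bot] at h4
          rw [Subgroup.mem_bot]
          apply hi
          rw [h4, map_one]
        · rw [codisjoint_iff, eq_top_iff]
          intro v _
          have hv : i v ∈ Y ⊔ P' := by
            rw [hY2, ← hr]
            exact ⟨v, rfl⟩
          obtain ⟨y, hy, z, hz, hyz⟩ := Subgroup.mem_sup.mp hv
          obtain ⟨y₁, rfl⟩ := hYr hy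
          obtain ⟨z₁, rfl⟩ := hPr hz
          have h5 : v = y₁ * z₁ := by
            apply hi
            rw [← hyz, map_mul]
          rw [h5]
          exact Subgroup.mul_mem_sup hy hz
        · obtain ⟨y, hy, hgen⟩ := hcyc
          obtain ⟨y₁, rfl⟩ := hYr hy
          refine ⟨⟨⟨y₁, hy⟩, ?_⟩⟩
          intro x
          obtain ⟨k, hk⟩ := hgen (i x) x.2
          refine ⟨k, ?_⟩
          apply Subtype.ext
          apply hi
          rw [hk, ← map_zpow]
          rfl
        · intro e u hu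
          rw [Subgroup.mem_comap] at hu ⊢
          obtain ⟨a, ha, hae⟩ := hφ e
          rw [hae]
          exact hYst a ha _ hu
      · right
        refine ⟨hl, hsw, ?_, ?_, ?_⟩
        · intro v
          rw [Subgroup.mem_comap, map_pow]
          refine hpw _ ?_
          rw [← hr]
          exact ⟨v, rfl⟩
        · intro e v hv h u
          obtain ⟨a, ha, hae⟩ := hφ e
          rw [Subgroup.mem_comap, map_mul, map_inv, hae] at h ⊢
          exact hfr a ha (i v) (by rw [← hr]; exact ⟨v, rfl⟩) (fun h' => hv h') h (i u)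
            (by rw [← hr]; exact ⟨u, rfl⟩)
        · intro e f v
          obtain ⟨a, ha, hae⟩ := hφ e
          obtain ⟨b, hb, hbf⟩ := hφ f
          apply hi
          rw [hae, hbf, hbf, hae]
          exact hab a ha b hb (i v) (by rw [← hr]; exact ⟨v, rfl⟩)
    · intro w hw
      rw [Subgroup.mem_comap] at hw ⊢
      exact cha_le hch hw

theorem knf : KnfStmt := by
  intro ℓ V _ _ E W U X hch h
  have hst : ∀ e : E, ∀ w ∈ W, E.subtype e w ∈ W := by
    intro e w hw
    rw [← h.uw] at hw ⊢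
    obtain ⟨u, hu, x, hx, rfl⟩ := Subgroup.mem_sup.mp hw
    rw [map_mul]
    exact Subgroup.mul_mem_sup (h.su e e.2 u hu) (h.sx e e.2 x hx)
  obtain ⟨n, hn⟩ := claim hch V E E.subtype (MonoidHom.id V) (fun _ _ h => h)
    (fun x => ⟨x, x.2, fun v => rfl⟩)
    (by rw [MonoidHom.range_eq_map, Subgroup.map_id])
  have hUW : U ≤ W := by
    rw [← h.uw]
    exact le_sup_left
  have hXW : X ≤ W := by
    rw [← h.uw]
    exact le_sup_right
  refine ⟨n, rsh E.subtype W hst, hn, fun e w => rfl, U.subgroupOf W, X.subgroupOf W, ?_, ?_,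
    ?_, ?_, ?_⟩
  · intro hb
    apply h.nt
    have h2 := Subgroup.subgroupOf_map_subtype U W
    rw [hb, Subgroup.map_bot, inf_eq_left.mpr hUW] at h2
    exact h2.symm
  · constructor
    · rw [disjoint_iff, eq_bot_iff]
      intro v hv
      obtain ⟨hv1, hv2⟩ := Subgroup.mem_inf.mp hv
      rw [Subgroup.mem_subgroupOf] at hv1 hv2
      have h3 : (v : V) ∈ U ⊓ X := Subgroup.mem_inf.mpr ⟨hv1, hv2⟩
      rw [h.ux, Subgroup.mem_bot] at h3
      rw [Subgroup.mem_bot]
      exact Subtype.ext h3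
    · rw [codisjoint_iff, eq_top_iff]
      intro v _
      have hv : (v : V) ∈ U ⊔ X := by
        rw [h.uw]
        exact v.2
      obtain ⟨u, hu, x, hx, hux⟩ := Subgroup.mem_sup.mp hv
      have h5 : v = (⟨u, hUW hu⟩ : W) * ⟨x, hXW hx⟩ := Subtype.ext hux.symm
      rw [h5]
      exact Subgroup.mul_mem_sup (Subgroup.mem_subgroupOf.mpr hu)
        (Subgroup.mem_subgroupOf.mpr hx)
  · intro e u hu
    rw [Subgroup.mem_subgroupOf] at hu ⊢
    exact h.su e e.2 _ hu
  · intro e u hu
    rw [Subgroup.mem_subgroupOf] at hu ⊢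
    exact h.sx e e.2 _ hu
  · intro e u hu hu1 heu
    rw [Subgroup.mem_subgroupOf] at hu
    apply MulEquiv.ext
    intro w
    apply Subtype.ext
    change (e : MulAut V) (w : V) = w
    refine h.fr e e.2 u hu ?_ ?_ w w.2
    · intro h0
      exact hu1 (Subtype.ext h0)
    · exact Subtype.ext_iff.mp heu

end Pool.Agent.PST.H10
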