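import Pool.Agent.PST.StmtsK4
import Pool.Agent.Helper95_PSS.IND

/-!
# Squad PST, row ZUN (helper10): `rt x y 1` is a unit for every form
-/

open scoped BigOperators

noncomputable section

namespace Pool.Agent.PST.H10

open Pool.Agent.PSS

section zun

variable {F V A K : Type} [Field F] [CommGroup V] [Fintype V] [Ring A] [Algebra F A] [Fintype K]
  {α : V →* A} {lam : A →ₗ[F] F} {x y : K → A}

theorem zun_nd (h : RF F α lam x y) (t : A) (ht : ∀ a, lam (t * a) = 0) : t = 0 := by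
  rw [← h.e2 t]
  refine Finset.sum_eq_zero fun k _ => Finset.sum_eq_zero fun v _ => ?_
  rw [ht, zero_smul]

theorem zun_ex (h : RF F α lam x y) (lam' : A →ₗ[F] F) (hs : ∀ a b, lam' (a * b) = lam' (b * a)) :
    ∃ z : A, (∀ a, lam (z * a) = lam' a) ∧ ∀ s, z * s = s * z := by
  have hz : ∀ a, lam ((∑ k, ∑ v, lam' (x k * α v) • (α v⁻¹ * y k)) * a) = lam' a := by
    intro a
    conv_rhs => rw [← h.e1 a]
    rw [Finset.sum_mul, map_sum, map_sum]
    refine Finset.sum_congr rfl fun k _ => ?_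
    rw [Finset.sum_mul, map_sum, map_sum]
    refine Finset.sum_congr rfl fun v _ => ?_
    rw [smul_mul_assoc, map_smul, map_smul, smul_eq_mul, smul_eq_mul, mul_comm]
  refine ⟨_, hz, fun s => ?_⟩
  rw [← sub_eq_zero]
  refine zun_nd h _ fun a => ?_
  rw [sub_mul, map_sub, mul_assoc, hz, mul_assoc s, h.sym s, mul_assoc, hz, hs, sub_self]

end zun

theorem zun : ZunStmt := by
  intro F V E A K _ _ _ _ _ _ _ φ α lam x y hC hR
  obtain ⟨lam', K', iK', x', y', hR', u', hu'⟩ := hC.rt
  obtain ⟨z, hz, hzc⟩ := zun_ex hR lam' hR'.sym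
  obtain ⟨z', hz', hzc'⟩ := zun_ex hR' lam hR.sym
  have h1 : z * z' = 1 := by
    rw [← sub_eq_zero]
    refine zun_nd hR _ fun a => ?_
    rw [sub_mul, map_sub, mul_assoc, hz, hz', one_mul, sub_self]
  have h2 : z' * z = 1 := by rw [hzc', h1]
  have hS : RF F α lam' (fun k => z' * x k) y := by
    refine ⟨hR'.sym, fun a => ?_, fun a => ?_⟩
    · have h3 : ∀ k v, lam' (α v⁻¹ * y k * a) • (z' * x k * α v) =
          z' * (lam (α v⁻¹ * y k * (z * a)) • (x k * α v)) := by
        intro k v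
        rw [mul_smul_comm, mul_assoc z', ← hz (α v⁻¹ * y k * a), ← mul_assoc z, hzc,
          mul_assoc _ z a]
      have h4 : ∑ k, ∑ v, lam' (α v⁻¹ * y k * a) • (z' * x k * α v) =
          z' * ∑ k, ∑ v, lam (α v⁻¹ * y k * (z * a)) • (x k * α v) := by
        rw [Finset.mul_sum]
        refine Finset.sum_congr rfl fun k _ => ?_
        rw [Finset.mul_sum]
        exact Finset.sum_congr rfl fun v _ => h3 k v
      rw [h4, hR.e1, ← mul_assoc, h2, one_mul]
    · have h3 : ∀ k v, lam' (a * (z' * x k * α v)) = lam (a * (x k * α v)) := by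
        intro k v
        rw [mul_assoc z', ← mul_assoc a z', ← hzc', mul_assoc z', hz']
      have h4 : ∑ k, ∑ v, lam' (a * (z' * x k * α v)) • (α v⁻¹ * y k) =
          ∑ k, ∑ v, lam (a * (x k * α v)) • (α v⁻¹ * y k) :=
        Finset.sum_congr rfl fun k _ => Finset.sum_congr rfl fun v _ => by rw [h3 k v]
      rw [h4, hR.e2]
  have hmem : (1 : A) ∈ FxR (cw F α) ⊤ := by
    intro v _
    show α v * (1 * α v⁻¹) = 1
    rw [one_mul, ← map_mul, mul_inv_cancel, map_one]
  have h5 := S0.H95.ind F V A K K' α lam' (fun k => z' * x k) y x' y' hS hR' 1 hmem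
  have h6 : ∑ k, x' k * y' k = z' * rt x y 1 := by
    have h7 : ∑ k, x' k * 1 * y' k = ∑ k, x' k * y' k :=
      Finset.sum_congr rfl fun k _ => by rw [mul_one]
    rw [← h7, ← h5]
    unfold rt
    rw [Finset.mul_sum]
    exact Finset.sum_congr rfl fun k _ => by rw [mul_assoc, mul_assoc, mul_assoc]
  refine ⟨u' * z', ?_⟩
  rw [mul_assoc, ← h6, hu']

end Pool.Agent.PST.H10
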